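import Mathlib

open Polynomial Filter Topology

namespace Pool.Agent.H.MP_1bffc6_nt

/-- Rounding in the basis `u^i v^(N-i)`. -/
theorem approx (u v : ℤ[X]) (hu : u.natDegree ≤ 1) (hv : v.natDegree ≤ 1) (r c : ℝ)
    (hc : c ≠ 0) (hur : u.map (Int.castRingHom ℝ) = C c * (X - C r)) (hvr : aeval r v ≠ 0)
    (I : Set ℝ) (M : ℝ) (hM : 0 ≤ M) (huI : ∀ x ∈ I, |aeval x u| ≤ M)
    (hvI : ∀ x ∈ I, |aeval x v| ≤ M) (N : ℕ) :
    ∀ R : ℝ[X], R.natDegree ≤ N → ∃ Q : ℤ[X], Q.natDegree ≤ N ∧
      ∀ x ∈ I, |R.eval x - aeval x Q| ≤ (N + 1) * M ^ N := by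
  have hev : ∀ (p : ℤ[X]) (x : ℝ), (p.map (Int.castRingHom ℝ)).eval x = aeval x p := by
    intro p x
    rw [aeval_def, eval_map]
    rfl
  induction N with
  | zero =>
    intro R hR
    refine ⟨C ⌊R.coeff 0⌋, by simp, fun x _ => ?_⟩
    rw [eq_C_of_natDegree_le_zero hR]
    simp only [eval_C, coeff_C_zero, eq_intCast, map_intCast, Nat.cast_zero, zero_add, pow_zero,
      mul_one]
    have h1 := Int.floor_le (R.coeff 0)
    have h2 := Int.lt_floor_add_one (R.coeff 0)
    rw [abs_le]
    constructor <;> linarith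
  | succ N ih =>
    intro R hR
    set k : ℝ := R.eval r / (aeval r v) ^ (N + 1) with hk
    set S : ℝ[X] := R - C k * (v.map (Int.castRingHom ℝ)) ^ (N + 1) with hS
    have hroot : S.IsRoot r := by
      rw [IsRoot.def, hS, eval_sub, eval_mul, eval_C, eval_pow, hev, hk]
      field_simp
      ring
    have hSdeg : S.natDegree ≤ N + 1 := by
      refine (natDegree_sub_le _ _).trans (max_le hR ?_)
      refine (natDegree_C_mul_le _ _).trans ?_
      refine natDegree_pow_le.trans ?_
      have := (natDegree_map_le (p := v) (f := Int.castRingHom ℝ)).trans hv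
      nlinarith
    obtain ⟨T, hT⟩ := dvd_iff_isRoot.mpr hroot
    have hTdeg : T.natDegree ≤ N := by
      by_cases h0 : T = 0
      · simp [h0]
      · have : S.natDegree = 1 + T.natDegree := by
          rw [hT, natDegree_mul (X_sub_C_ne_zero r) h0, natDegree_X_sub_C]
        omega
    obtain ⟨Q, hQ, hQI⟩ := ih (C c⁻¹ * T) ((natDegree_C_mul_le _ _).trans hTdeg)
    refine ⟨u * Q + C ⌊k⌋ * v ^ (N + 1), ?_, fun x hx => ?_⟩
    · refine (natDegree_add_le _ _).trans (max_le ?_ ?_)
      · refine natDegree_mul_le.trans ?_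
        omega
      · refine (natDegree_C_mul_le _ _).trans ?_
        refine natDegree_pow_le.trans ?_
        nlinarith
    · have hux : aeval x u = c * (x - r) := by
        rw [← hev, hur]
        simp
      have hRx : R.eval x = (x - r) * T.eval x + k * (aeval x v) ^ (N + 1) := by
        have := congrArg (eval x) hT
        rw [hS, eval_sub, eval_mul, eval_C, eval_pow, hev] at this
        simp only [eval_mul, eval_sub, eval_X, eval_C] at this
        linarith
      have hid : R.eval x - aeval x (u * Q + C ⌊k⌋ * v ^ (N + 1)) =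
          aeval x u * ((C c⁻¹ * T).eval x - aeval x Q) + (k - ⌊k⌋) * (aeval x v) ^ (N + 1) := by
        rw [hRx]
        simp only [map_add, map_mul, map_pow, eq_intCast, map_intCast, eval_mul, eval_C, hux]
        field_simp
        ring
      rw [hid]
      have h1 : |aeval x u * ((C c⁻¹ * T).eval x - aeval x Q)| ≤ M * ((N + 1) * M ^ N) := by
        rw [abs_mul]
        exact mul_le_mul (huI x hx) (hQI x hx) (abs_nonneg _) hM
      have h2 : |(k - ⌊k⌋) * (aeval x v) ^ (N + 1)| ≤ 1 * M ^ (N + 1) := by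
        rw [abs_mul, abs_pow]
        refine mul_le_mul ?_ (pow_le_pow_left₀ (abs_nonneg _) (hvI x hx) _) (by positivity)
          zero_le_one
        have h1 := Int.floor_le k
        have h2 := Int.lt_floor_add_one k
        rw [abs_le]
        constructor <;> linarith
      refine (abs_add_le _ _).trans ((add_le_add h1 h2).trans (le_of_eq ?_))
      push_cast
      ring

/-- The value of a monic integer polynomial at a reduced fraction with denominator at least 2. -/
theorem lower (a b : ℤ) (hb : 2 ≤ b) (hab : IsCoprime a b) (P : ℤ[X]) (hP : P.Monic) :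
    (1 / (b : ℝ)) ^ P.natDegree ≤ |aeval ((a : ℝ) / b) P| := by
  have hb0 : (0 : ℝ) < b := by exact_mod_cast (by omega : (0 : ℤ) < b)
  set n := P.natDegree with hn
  set z : ℤ := ∑ i ∈ Finset.range n, P.coeff i * a ^ i * b ^ (n - 1 - i) with hz
  have hval : (b : ℝ) ^ n * aeval ((a : ℝ) / b) P = ((a ^ n + b * z : ℤ) : ℝ) := by
    rw [aeval_eq_sum_range, ← hn, Finset.sum_range_succ]
    have hl : P.coeff n = 1 := hP.coeff_natDegree
    rw [hl, mul_add, Finset.mul_sum, hz]
    push_cast
    rw [Finset.mul_sum, add_comm]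
    congr 1
    · rw [one_smul, div_pow]
      field_simp
    · refine Finset.sum_congr rfl fun i hi => ?_
      have hi' := Finset.mem_range.mp hi
      obtain ⟨j, hj⟩ : ∃ j, n = i + j + 1 := ⟨n - 1 - i, by omega⟩
      have : n - 1 - i = j := by omega
      rw [this, zsmul_eq_mul, div_pow, hj]
      field_simp
      ring
  have hne : a ^ n + b * z ≠ 0 := by
    intro h
    have hd : b ∣ a ^ n := ⟨-z, by linarith⟩
    have hu : IsUnit b := (hab.pow_left (m := n)).symm.isUnit_of_dvd hd
    rcases Int.isUnit_iff.mp hu with h | h <;> omega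
  have h1 : (1 : ℝ) ≤ |((a ^ n + b * z : ℤ) : ℝ)| := by
    have := Int.one_le_abs hne
    exact_mod_cast this
  rw [← hval, abs_mul, abs_of_pos (pow_pos hb0 n)] at h1
  rw [one_div, inv_pow, inv_le_iff_one_le_mul₀' (pow_pos hb0 n)]
  exact h1

theorem lim (M : ℝ) (hM : 0 < M) :
    Tendsto (fun n : ℕ => (M ^ n * (1 + n / M)) ^ ((1 : ℝ) / n)) atTop (𝓝 M) := by
  have h1 : Tendsto (fun n : ℕ => (1 + (n : ℝ) / M) ^ ((1 : ℝ) / n)) atTop (𝓝 1) := by
    have h2 : Tendsto (fun x : ℝ => x ^ ((1 / M) / (1 * x + (-1)))) atTop (𝓝 1) :=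
      tendsto_rpow_div_mul_add _ _ _ (by norm_num)
    have h3 : Tendsto (fun n : ℕ => 1 + (n : ℝ) / M) atTop atTop :=
      tendsto_atTop_add_const_left _ _ (tendsto_natCast_atTop_atTop.atTop_div_const hM)
    refine (h2.comp h3).congr' ?_
    filter_upwards [eventually_gt_atTop 0] with n hn
    have : (0 : ℝ) < n := by exact_mod_cast hn
    simp only [Function.comp]
    congr 1
    have e : 1 * (1 + (n : ℝ) / M) + -1 = n / M := by ring
    rw [e]
    field_simp
  have h4 := h1.const_mul M
  rw [mul_one] at h4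
  refine h4.congr' ?_
  filter_upwards [eventually_gt_atTop 0] with n hn
  rw [Real.mul_rpow (by positivity) (by positivity), one_div,
    Real.pow_rpow_inv_natCast hM.le (by omega)]

end Pool.Agent.H.MP_1bffc6_nt
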